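import Pool.Agent.Helper79.GU.St1
import Pool.Agent.Helper79.GT.St6
import Pool.Agent.Helper79.GS.Lib

/-!
# Project GU (MP_c2d095_lc): module EVE, the functions of the recursive procedure are E2
-/

set_option autoImplicit false

namespace Pool.Agent.Helper70.GU

open Pool.Agent.Helper79.GU Pool.Agent.Helper79.GT Pool.Agent.Helper79.GS Pool.Agent.Helper19.SK
open Pool.Agent.Helper73.DC Finset
open scoped Classical

private theorem ei {p : List (Fin 5) → (ℕ → ℕ) → Prop} {F G : VF (Fin 5)}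
    {inst : ∀ w v, Decidable (p w v)} (hp : E2P p) (hF : E2 F) (hG : E2 G) :
    E2 (fun w v => @ite ℕ (p w v) (inst w v) (F w v) (G w v)) := by
  have h := e_ite hp hF hG
  have e : (fun w v => @ite ℕ (p w v) (inst w v) (F w v) (G w v)) =
      fun w v => @ite ℕ (p w v) (Classical.propDecidable _) (F w v) (G w v) := by
    funext w v
    by_cases hpv : p w v
    · rw [if_pos hpv, if_pos hpv]
    · rw [if_neg hpv, if_neg hpv]
  rw [e]
  exact h

private theorem e_b01 {p : List (Fin 5) → (ℕ → ℕ) → Prop} (hp : E2P p) :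
    E2 (fun w v => b01 (p w v)) := by
  unfold b01
  exact ei hp (e_con 1) (e_con 0)

private theorem e_stN (hEB2 : StEB2) {N n C U V : VF (Fin 5)} (hN : E2 N) (hn : E2 n) (hC : E2 C)
    (hU : E2 U) (hV : E2 V) :
    E2P (fun w v => Pool.Agent.Helper79.GU.stN (N w v) (n w v) (C w v) (U w v) (V w v)) := by
  unfold Pool.Agent.Helper79.GU.stN
  exact e_or (hEB2.2.2.1 _ _ _ _ _ hN hn (e_sub (e_con 1) hC) hU hV).1
    (e_and (hEB2.2.2.1 _ _ _ _ _ hN hn hC hU hV).1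
      (hEB2.2.2.1 _ _ _ _ _ hN hn (e_sub (e_con 1) hC) hV hU).1)

private theorem e_gdN (hEB2 : StEB2) {N n C V : VF (Fin 5)} (hN : E2 N) (hn : E2 n) (hC : E2 C)
    (hV : E2 V) : E2P (fun w v => gdN (N w v) (n w v) (C w v) (V w v)) := by
  have h1 : E2P (fun w v => areaN (N w v) (n w v) 0 (V w v) < areaN (N w v) (n w v) 1 (V w v)) :=
    e_lt (hEB2.2.2.2 _ _ _ _ hN hn (e_con 0) hV).1 (hEB2.2.2.2 _ _ _ _ hN hn (e_con 1) hV).1
  have h := e_or (e_and (e_eq hC (e_con 1)) h1) (e_and (e_not (e_eq hC (e_con 1))) (e_not h1))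
  have e : (fun w v => gdN (N w v) (n w v) (C w v) (V w v)) = (fun w v =>
      (C w v = 1 ∧ areaN (N w v) (n w v) 0 (V w v) < areaN (N w v) (n w v) 1 (V w v)) ∨
      (¬ C w v = 1 ∧
        ¬ areaN (N w v) (n w v) 0 (V w v) < areaN (N w v) (n w v) 1 (V w v))) := by
    funext w v
    unfold gdN
    by_cases hc : C w v = 1
    · simp only [hc, if_true, true_and, not_true, false_and, or_false]
    · simp only [hc, if_false, false_and, not_false_eq_true, true_and, false_or]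
  rw [e]
  exact h

private theorem e_cE (hnV : E2 (α := Fin 5) (fun w _ => nV w)) :
    E2 (α := Fin 5) (fun w _ => cE w) := by
  unfold cE
  exact ei (e_eq (e_lett (e_sub e_len (e_add (e_mul (e_con 2) (e_mul hnV hnV)) (e_con 1))))
    (e_con _)) (e_con 1) (e_con 0)

private theorem e_bE (hnV : E2 (α := Fin 5) (fun w _ => nV w)) {N : VF (Fin 5)} (hN : E2 N) :
    E2 (fun w v => bE (N w v) w) := by
  unfold bE
  refine e_sum (T := fun w p v => ctE w p * pw (N w v) 3 p) (H := fun w _ => nV w * nV w) ?_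
    (e_mul hnV hnV)
  refine e_mul ?_ (e_pw (e_sh hN) (e_con 3) (e_get 0))
  have hl : E2 (α := Fin 5) (fun w v => lett w (w.length - nV w * nV w + v 0)) :=
    e_lett (e_add (e_sub e_len (e_mul hnV hnV)) (e_get 0))
  unfold ctE
  exact ei (e_eq hl (e_con _)) (e_con 1) (ei (e_eq hl (e_con _)) (e_con 2) (e_con 0))

private theorem e_Ph (hnV : E2 (α := Fin 5) (fun w _ => nV w)) {N : VF (Fin 5)} (hN : E2 N) :
    E2 (fun w v => PhE (N w v) w) := by
  unfold PhE
  exact e_pw hN (e_con 2) (e_add (e_mul (e_con 2) (e_mul hnV hnV)) (e_con 4))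

private theorem e_Nb (hnV : E2 (α := Fin 5) (fun w _ => nV w)) {N : VF (Fin 5)} (hN : E2 N) :
    E2 (fun w v => NbE (N w v) w) := by
  unfold NbE
  exact e_pw hN (e_con 3) (e_mul hnV hnV)

private theorem e_z (hnV : E2 (α := Fin 5) (fun w _ => nV w)) {N T K U V C : VF (Fin 5)}
    (hN : E2 N) (hT : E2 T) (hK : E2 K) (hU : E2 U) (hV : E2 V) (hC : E2 C) :
    E2 (fun w v => zE (N w v) w (T w v) (K w v) (U w v) (V w v) (C w v)) := by
  have hP := e_Ph hnV hN
  have h := e_add hT (e_mul hP (e_add hK (e_mul hP (e_add hU (e_mul hP (e_add hV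
    (e_mul hP hC)))))))
  have e : (fun w v => zE (N w v) w (T w v) (K w v) (U w v) (V w v) (C w v)) = (fun w v =>
      T w v + PhE (N w v) w * (K w v + PhE (N w v) w * (U w v + PhE (N w v) w *
        (V w v + PhE (N w v) w * C w v)))) := by
    funext w v
    unfold zE
    simp only [Nat.ofDigits_cons, Nat.ofDigits_nil, mul_zero, add_zero]
  rw [e]
  exact h

private theorem e_f (hnV : E2 (α := Fin 5) (fun w _ => nV w)) {N Z : VF (Fin 5)}
    (hN : E2 N) (hZ : E2 Z) (i : ℕ) : E2 (fun w v => fE (N w v) w (Z w v) i) := by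
  unfold fE
  exact e_dg (e_Ph hnV hN) hZ (e_con i)

theorem hEVE (hEB2 : Pool.Agent.Helper79.GS.StEB2) (hEVW : Pool.Agent.Helper79.GT.StEVW) :
    Pool.Agent.Helper79.GU.StEVE := by
  obtain ⟨hnV, -⟩ := hEVW
  have h2n : E2 (α := Fin 5) (fun w _ => 2 * (nV w * nV w)) := e_mul (e_con 2) (e_mul hnV hnV)
  refine ⟨e_cE hnV, fun N hN => e_bE hnV hN, fun N T K U V C hN hT hK hU hV hC =>
    e_z hnV hN hT hK hU hV hC, fun N Z hN hZ => ⟨?_, ?_⟩, fun N Z J hN hZ hJ => ?_,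
    fun N Z J A Y hN hZ hJ hA hY => ?_⟩
  · have f := fun i => e_f hnV hN hZ i
    unfold iniE
    exact ei (e_eq (f 0) (e_con 1)) (ei (e_eq (f 1) (e_con 0))
      (e_b01 (e_or (e_eq (f 2) (f 3)) (e_stN hEB2 hN hnV (f 4) (f 2) (f 3)))) (e_con 0))
      (ei (e_eq (f 0) (e_con 2)) (e_con 1) (e_con 0))
  · have f := fun i => e_f hnV hN hZ i
    unfold lenE
    exact ei (e_eq (f 0) (e_con 1)) (ei (e_eq (f 1) (e_con 0)) (e_con 0)
      (e_mul (e_con 2) (e_Nb hnV hN))) (ei (e_eq (f 0) (e_con 2)) (e_Nb hnV hN)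
      (ei (e_eq (f 0) (e_con 3)) (e_add (e_Nb hnV hN) (e_con 1)) (e_con 0)))
  · have f := fun i => e_f hnV hN hZ i
    unfold delE
    refine ei (e_eq (f 0) (e_con 1)) (ei (e_eq (e_mod hJ (e_con 2)) (e_con 0))
      (e_z hnV hN (e_con 1) (e_sub (f 1) (e_con 1)) (f 2) (e_div hJ (e_con 2)) (f 4))
      (e_z hnV hN (e_con 1) (e_sub (f 1) (e_con 1)) (e_div hJ (e_con 2)) (f 3) (f 4))) ?_
    refine ei (e_eq (f 0) (e_con 2)) (e_z hnV hN (e_con 1) h2n (f 2) hJ (f 4)) ?_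
    exact ei (e_eq (f 0) (e_con 3)) (ei (e_eq hJ (e_con 0))
      (e_z hnV hN (e_con 2) (e_con 0) (f 2) (e_con 0) (f 4))
      (e_z hnV hN (e_con 2) (e_con 0) (e_sub hJ (e_con 1)) (e_con 0) (f 4))) (e_con 0)
  · have f := fun i => e_f hnV hN hZ i
    unfold stpE
    refine ei (e_eq (f 0) (e_con 1)) (ei (e_eq (e_mod hJ (e_con 2)) (e_con 0))
      (e_add (e_mod hA (e_con 2)) (e_mul (e_con 2) (e_b01 (e_ne hY (e_con 0)))))
      (e_b01 (e_or (e_eq (e_mod hA (e_con 2)) (e_con 1))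
        (e_and (e_eq (e_div hA (e_con 2)) (e_con 1)) (e_ne hY (e_con 0)))))) ?_
    refine ei (e_eq (f 0) (e_con 2)) (e_b01 (e_and (e_eq hA (e_con 1)) (e_or (e_eq hY (e_con 0))
      (e_gdN hEB2 hN hnV (f 4) hJ)))) ?_
    exact ei (e_eq (f 0) (e_con 3)) (ei (e_eq hJ (e_con 0)) (e_b01 (e_ne hY (e_con 0)))
      (e_b01 (e_or (e_eq hA (e_con 1)) (e_and
        (hEB2.2.2.1 _ _ _ _ _ hN hnV (f 4) (f 2) (e_sub hJ (e_con 1))).1
        (e_ne hY (e_con 0)))))) (e_con 0)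

end Pool.Agent.Helper70.GU
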